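import Pool.Agent.W751.RV.Stm
import Pool.Agent.W327.CV.Poly

/-! # Project RV, part QE -/

set_option autoImplicit false

open Polynomial Filter Topology MeasureTheory

namespace Pool.Agent.W29.RV

open Pool.Agent.W751.CD Pool.Agent.W751.CV Pool.Agent.W751.RV

theorem eval_Q {N : ℕ} (q : Fin N → ℂ) (w : ℂ) : (Q q).eval w = ∏ i, (1 - q i * w) := by
  unfold Q
  rw [eval_prod]
  refine Finset.prod_congr rfl fun i _ => ?_
  rw [eval_sub, eval_one, eval_mul, eval_C, eval_X]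

theorem eval_P' {N : ℕ} (q : Fin N → ℂ) (w : ℂ) : (P q).eval w = ∏ i, (w - q i) := by
  unfold P
  rw [eval_prod]
  refine Finset.prod_congr rfl fun i _ => ?_
  rw [eval_sub, eval_C, eval_X]

theorem eval_Q_inv {N : ℕ} (q : Fin N → ℂ) (w : ℂ) (hw : w ≠ 0) :
    (Q q).eval w = w ^ N * (P q).eval w⁻¹ := by
  rw [eval_Q, eval_P']
  have h : (w ^ N : ℂ) = ∏ _i : Fin N, w := by
    rw [Finset.prod_const, Finset.card_univ, Fintype.card_fin]
  rw [h, ← Finset.prod_mul_distrib]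
  refine Finset.prod_congr rfl fun i _ => ?_
  rw [mul_sub, mul_inv_cancel₀ hw, mul_comm w (q i)]

theorem eval_den {N : ℕ} (b : Fin N → ℂ) (w : ℂ) (hw : w ≠ 0) :
    (den b).eval w = w ^ N * (poly b).eval w⁻¹ := by
  unfold den poly
  rw [eval_add, eval_one, eval_finsetSum, eval_add, eval_pow, eval_X, eval_finsetSum, mul_add,
    ← mul_pow, mul_inv_cancel₀ hw, one_pow, Finset.mul_sum]
  congr 1
  refine Finset.sum_congr rfl fun k _ => ?_
  rw [eval_mul, eval_C, eval_pow, eval_X, eval_mul, eval_C, eval_pow, eval_X]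
  obtain ⟨m, hm⟩ := Nat.exists_eq_add_of_le k.2.le
  have h2 : N - (k : ℕ) = m := by omega
  have h3 : w ^ (k : ℕ) ≠ 0 := pow_ne_zero _ hw
  have h4 : w ^ N = w ^ (k : ℕ) * w ^ m := by rw [← pow_add, ← hm]
  rw [h2, h4, inv_pow]
  field_simp

theorem poly_eq_of_ne {f g : ℂ[X]} (h : ∀ w : ℂ, w ≠ 0 → f.eval w = g.eval w) : f = g := by
  apply Polynomial.eq_of_infinite_eval_eq
  have h1 : ({0}ᶜ : Set ℂ).Infinite := (Set.finite_singleton (0 : ℂ)).infinite_compl
  exact h1.mono fun w hw => h w hw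

theorem den_eq {N : ℕ} (b q : Fin N → ℂ) (h : poly b = P q) : den b = Q q := by
  apply poly_eq_of_ne
  intro w hw
  rw [eval_den b w hw, h, eval_Q_inv q w hw]

theorem qe : S_QE := by
  refine ⟨fun N q w => eval_Q q w, fun N q w hw => eval_Q_inv q w hw, ?_, ?_⟩
  · intro N q
    exact den_eq _ _ (Pool.Agent.W327.CV.poly_t.1 N q)
  · intro N σ b hb
    obtain ⟨q, hq, h⟩ := Pool.Agent.W327.CV.poly_t.2.2.2 N 0 σ b hb
    refine ⟨q, fun i => ?_, h, den_eq _ _ h⟩
    have := hq i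
    rwa [sub_zero] at this

end Pool.Agent.W29.RV
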